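import Mathlib
import Pool.Agent.Q4.Tube.Voj

set_option autoImplicit false

/-!
# Vojta's inequality with arbitrary divisors at the integral points near an irrational ray

The points `x = (1 : q : x₁ : ⋯ : xₙ)` of `ℙⁿ⁺¹` close to `ξ = (0 : 1 : θ₁ : ⋯ : θₙ)`, `θᵢ` algebraic,
with `q` almost an `S`-unit, are extremal for Schmidt's theorem. We show that they have no further
proximity to any divisors of any degree.
-/

namespace Pool.Agent.Results.MP_9b9442_nt.AllDivisorsNearRays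

open MvPolynomial

/-- the point `(q, x₁, …, xₙ)`; the variable `none` is the one of `q` -/
def point {n : ℕ} (q : ℕ) (x : Fin n → ℤ) : Option (Fin n) → ℤ := fun o => o.elim (q : ℤ) x

/-- the integral points `(q, x₁, …, xₙ)` near the ray spanned by `(1, θ₁, …, θₙ)`: `q = u w` where `u`
is composed of primes of `S` and `w ≤ q ^ η`, and `|θₛ q - xₛ| ≤ q ^ η` for all `s` -/
def NearRay {n : ℕ} (S : Finset ℕ) (θ : Fin n → ℝ) (η : ℝ) (q : ℕ) (x : Fin n → ℤ) : Prop :=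
  (∃ u w : ℕ, q = u * w ∧ u.primeFactors ⊆ S ∧ (w : ℝ) ≤ (q : ℝ) ^ η) ∧
  ∀ s, |θ s * q - x s| ≤ (q : ℝ) ^ η

/-- the polynomial `F(X₀, θ₁ X₀ - X₁, …, θₙ X₀ - Xₙ)` -/
noncomputable def rayCoordinates {n : ℕ} (θ : Fin n → ℝ) (F : MvPolynomial (Option (Fin n)) ℝ) :
    MvPolynomial (Option (Fin n)) ℝ :=
  bind₁ (fun o : Option (Fin n) => o.elim (X none) (fun s => C (θ s) * X none - X (some s))) F

/-- the degree in `X₀` of `F(X₀, θ₁ X₀ - X₁, …, θₙ X₀ - Xₙ)`. If `d ≥ deg F`, then the divisor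
`D` = closure of `F = 0` + `(d - deg F)` times the hyperplane at infinity, of degree `d`, has multiplicity
`d - rayDegree θ F` at the point `ξ = (0 : 1 : θ₁ : ⋯ : θₙ)`. -/
noncomputable def rayDegree {n : ℕ} (θ : Fin n → ℝ) (F : MvPolynomial (Option (Fin n)) ℝ) : ℕ :=
  degreeOf none (rayCoordinates θ F)

/-- the `p`-part of an integer -/
def pPart (p : ℕ) (z : ℤ) : ℕ := p ^ (z.natAbs.factorization p)

/-- Let `1, θ₁, …, θₙ` be real algebraic numbers, linearly independent over `ℚ`, `S` a finite set of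
primes, `F ≠ 0` a polynomial in `X₀, …, Xₙ` with real algebraic coefficients and `G_p`, `p ∈ S`,
polynomials with integral coefficients, not divisible by `X₀ ^ (ν + 1)`. For every `ε > 0` there are
`η > 0` and `N` such that for all integral points `x = (q, x₁, …, xₙ)` near the ray with `q ≥ N`:
`∏_{p ∈ S} |G_p(x)|_p⁻¹ ≤ |F(x)| q ^ (ν - rayDegree θ F + ε)` and `G_p(x) ≠ 0`. -/
theorem result (n : ℕ) (θ : Fin n → ℝ) (halg : ∀ s, IsAlgebraic ℚ (θ s))
    (hind : LinearIndependent ℚ (fun o : Option (Fin n) => (o.elim 1 θ : ℝ))) (S : Finset ℕ)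
    (hS : ∀ p ∈ S, p.Prime) (F : MvPolynomial (Option (Fin n)) ℝ) (hF0 : F ≠ 0)
    (hF : ∀ m, IsAlgebraic ℚ (F.coeff m)) (G : ℕ → MvPolynomial (Option (Fin n)) ℤ) (ν : ℕ)
    (hG : ∀ p ∈ S, ¬ X none ^ (ν + 1) ∣ G p) (ε : ℝ) (hε : 0 < ε) :
    ∃ (η : ℝ) (N : ℕ), 0 < η ∧ ∀ q ≥ N, ∀ x, NearRay S θ η q x →
      (∀ p ∈ S, eval (point q x) (G p) ≠ 0) ∧
      (∏ p ∈ S, (pPart p (eval (point q x) (G p)) : ℝ)) * (q : ℝ) ^ ((rayDegree θ F : ℝ) - ν - ε)
        ≤ |eval (fun o => ((point q x o : ℤ) : ℝ)) F| := by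
  obtain ⟨η, N, hη, h⟩ := Pool.Agent.Q4.Tube.voj_main S hS halg hind F hF hF0 G ν hG ε hε
  refine ⟨η, N, hη, fun q hq x hx => ?_⟩
  have h1 := h q hq x hx
  refine ⟨h1.1, ?_⟩
  have h2 := h1.2
  unfold pPart
  push_cast
  exact h2

end Pool.Agent.Results.MP_9b9442_nt.AllDivisorsNearRays
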