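import Mathlib
import Pool.Agent.Q4.Opt.Hilb

set_option autoImplicit false

/-!
# Fibres over the nearly optimal rational approximations of an algebraic number

Hilbert's irreducibility theorem, and fields of bounded discriminant, for the points `(q, p)` where
`p / q` runs through the convergents, or more generally through all nearly optimal rational
approximations, of a real algebraic number of degree at least three.
-/

namespace Pool.Agent.Results.MP_9b9442_nt.FibresOverConvergents

open MvPolynomial

/-- the point `(q, p)`; the variable `none` is the one of `q`, the variable `some ()` the one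
of `p` -/
def point (p : ℤ) (q : ℕ) : Option Unit → ℤ := fun o => o.elim (q : ℤ) (fun _ => p)

/-- `p / q` is a nearly optimal approximation of `θ`: `q = a b`, with `a` composed of primes of `S`
and `b |θ q - p| ≤ q ^ η`. For `S = ∅` this is `|θ - p / q| ≤ q ^ (η - 2)`. -/
def NearlyOptimal (S : Finset ℕ) (θ η : ℝ) (p : ℤ) (q : ℕ) : Prop :=
  ∃ a b : ℕ, q = a * b ∧ a.primeFactors ⊆ S ∧ (b : ℝ) * |θ * q - p| ≤ (q : ℝ) ^ η

/-- the polynomial `P(q, p, Y)` with coefficients in `K` -/
noncomputable def fibre (p : ℤ) (q : ℕ) (P : Polynomial (MvPolynomial (Option Unit) ℤ)) (K : Type)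
    [Ring K] : Polynomial K :=
  P.map ((Int.castRingHom K).comp (eval (point p q)))

/-- the fibre at the point `(0 : 1 : θ)` at infinity: `Σᵢ topᵢ(1, θ) Yⁱ`, where `topᵢ` is the
homogeneous part of degree `(deg P - i) D` of the `i`-th coefficient of `P` -/
noncomputable def fibreAtInfinity (θ : ℝ) (D : ℕ) (P : Polynomial (MvPolynomial (Option Unit) ℤ)) :
    Polynomial ℝ :=
  ∑ i ∈ Finset.range (P.natDegree + 1),
    Polynomial.C (aeval (fun o : Option Unit => (o.elim 1 (fun _ => θ) : ℝ))
      (homogeneousComponent ((P.natDegree - i) * D) (P.coeff i))) * Polynomial.X ^ i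

/-- Let `θ` be a real algebraic number of degree at least `3`, `S` a finite set of primes, and
`P ∈ ℤ[X₀, X₁][Y]` monic in `Y` whose `i`-th coefficient has total degree at most `(deg P - i) D`,
such that the fibre at infinity over `(0 : 1 : θ)` is separable.

* For every `B` there are `η > 0` and `N` such that for all nearly optimal approximations `p / q`
  of `θ` with `q ≥ N` and all number fields `K` with `|d_K| ≤ B`, every monic divisor of
  `P(q, p, Y)` in `K[Y]` is `G(q, p, Y)` for a monic divisor `G` of `P` in `K[X₀, X₁][Y]`.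
* If `P` is irreducible over a number field `K`, then there are `η > 0` and `N` such that
  `P(q, p, Y)` is irreducible in `K[Y]` for all these `p / q`.
* If `P` has no zero `Y ∈ ℂ[X₀, X₁]`, then for every `B` there are `η > 0` and `N` such that every
  number field containing a root of some such `P(q, p, Y)` has absolute discriminant larger than
  `B`. -/
theorem result (θ : ℝ) (halg : IsAlgebraic ℚ θ) (hθ : 3 ≤ (minpoly ℚ θ).natDegree) (S : Finset ℕ)
    (P : Polynomial (MvPolynomial (Option Unit) ℤ)) (hP : P.Monic) (D : ℕ)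
    (hdeg : ∀ i, (P.coeff i).totalDegree ≤ (P.natDegree - i) * D)
    (hsep : (fibreAtInfinity θ D P).Separable) :
    (∀ B : ℕ, ∃ (η : ℝ) (N : ℕ), 0 < η ∧ ∀ q ≥ N, ∀ p : ℤ, NearlyOptimal S θ η p q →
      ∀ (K : Type) [Field K] [NumberField K],
      |NumberField.discr K| ≤ B → ∀ g : Polynomial K, g.Monic → g ∣ fibre p q P K →
      ∃ G : Polynomial (MvPolynomial (Option Unit) K), G.Monic ∧
        G ∣ P.map (map (Int.castRingHom K)) ∧
        G.map (eval (fun o => ((point p q o : ℤ) : K))) = g) ∧
    (∀ (K : Type) [Field K] [NumberField K], Irreducible (P.map (map (Int.castRingHom K))) →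
      ∃ (η : ℝ) (N : ℕ), 0 < η ∧ ∀ q ≥ N, ∀ p : ℤ, NearlyOptimal S θ η p q →
        Irreducible (fibre p q P K)) ∧
    ((∀ G : MvPolynomial (Option Unit) ℂ,
        Polynomial.eval G (P.map (map (Int.castRingHom ℂ))) ≠ 0) →
      ∀ B : ℕ, ∃ (η : ℝ) (N : ℕ), 0 < η ∧ ∀ q ≥ N, ∀ p : ℤ, NearlyOptimal S θ η p q →
        ∀ (K : Type) [Field K] [NumberField K] (y : K), (fibre p q P K).eval y = 0 →
        (B : ℤ) < |NumberField.discr K|) := by
  have hmain : ∀ B : ℕ, ∃ (η : ℝ) (N : ℕ), 0 < η ∧ ∀ q ≥ N, ∀ p : ℤ, NearlyOptimal S θ η p q →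
      ∀ (K : Type) [Field K] [NumberField K],
      |NumberField.discr K| ≤ B → ∀ g : Polynomial K, g.Monic → g ∣ fibre p q P K →
      ∃ G : Polynomial (MvPolynomial (Option Unit) K), G.Monic ∧
        G ∣ P.map (map (Int.castRingHom K)) ∧
        G.map (eval (fun o => ((point p q o : ℤ) : K))) = g := by
    intro B
    obtain ⟨η, N, hη, h⟩ := Pool.Agent.Q4.Opt.factors_lift (S.filter Nat.Prime)
      (fun p hp => (Finset.mem_filter.1 hp).2) (fun _ => θ) halg hθ P D hP hdeg hsep B
    refine ⟨η, N, hη, fun q hq p hpq K _ _ hK g hg hd => ?_⟩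
    obtain ⟨a, b, hab, haS, hb⟩ := hpq
    exact h q hq (fun _ => p) ⟨a, b, hab, fun r hr => Finset.mem_filter.2
      ⟨haS hr, Nat.prime_of_mem_primeFactors hr⟩, hb⟩ K hK g hg hd
  refine ⟨hmain, fun K _ _ hirr => ?_, fun hno B => ?_⟩
  · obtain ⟨η, N, hη, h⟩ := hmain (NumberField.discr K).natAbs
    refine ⟨η, N, hη, fun q hq p hpq => ?_⟩
    have hPK : (P.map (map (Int.castRingHom K)) :
      Polynomial (MvPolynomial (Option Unit) K)).Monic := hP.map _
    have hfm : (fibre p q P K).Monic := hP.map _
    have hk0 : P.natDegree ≠ 0 := by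
      intro h0
      rw [hP.natDegree_eq_zero] at h0
      rw [h0, Polynomial.map_one] at hirr
      exact not_irreducible_one hirr
    have h1 : (fibre p q P K).natDegree = P.natDegree := hP.natDegree_map _
    have h2 : (P.map (map (Int.castRingHom K)) :
      Polynomial (MvPolynomial (Option Unit) K)).natDegree = P.natDegree := hP.natDegree_map _
    have hne1 : fibre p q P K ≠ 1 := by
      intro h0
      rw [h0, Polynomial.natDegree_one] at h1
      exact hk0 h1.symm
    have hne2 : (P.map (map (Int.castRingHom K)) :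
      Polynomial (MvPolynomial (Option Unit) K)) ≠ 1 := by
      intro h0
      rw [h0, Polynomial.natDegree_one] at h2
      exact hk0 h2.symm
    rw [hfm.irreducible_iff_lt_natDegree_lt hne1]
    intro g hg hgd hdvd
    obtain ⟨G, hG, hGd, hGg⟩ := h q hq p hpq K (by rw [Int.abs_eq_natAbs]) g hg hdvd
    rw [hPK.irreducible_iff_lt_natDegree_lt hne2] at hirr
    refine hirr G hG ?_ hGd
    rw [← hGg, hG.natDegree_map, h1] at hgd
    rw [h2]
    exact hgd
  · obtain ⟨η, N, hη, h⟩ := hmain B
    refine ⟨η, N, hη, fun q hq p hpq K _ _ y hy => ?_⟩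
    by_contra hle
    obtain ⟨G, hG, hGd, hGg⟩ := h q hq p hpq K (not_lt.1 hle) (Polynomial.X - Polynomial.C y)
      (Polynomial.monic_X_sub_C y) (Polynomial.dvd_iff_isRoot.2 hy)
    have h1 : G.natDegree = 1 := by
      rw [← hG.natDegree_map (eval (fun o => ((point p q o : ℤ) : K))), hGg,
        Polynomial.natDegree_X_sub_C]
    have h2 : G = Polynomial.X + Polynomial.C (G.coeff 0) := by
      conv_lhs => rw [hG.as_sum, h1]
      simp
    have τ : K →+* ℂ := (IsAlgClosed.lift : K →ₐ[ℚ] ℂ).toRingHom
    have h3 := Polynomial.map_dvd (map τ : MvPolynomial (Option Unit) K →+* _) hGd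
    rw [Polynomial.map_map] at h3
    have h4 : (map τ : MvPolynomial (Option Unit) K →+* MvPolynomial (Option Unit) ℂ).comp
        (map (Int.castRingHom K)) = map (Int.castRingHom ℂ) := by
      ext x <;> simp
    rw [h4, h2] at h3
    obtain ⟨Q, hQ⟩ := h3
    apply hno (-(map τ (G.coeff 0)))
    rw [hQ, Polynomial.eval_mul]
    simp

end Pool.Agent.Results.MP_9b9442_nt.FibresOverConvergents
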