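import Mathlib
import Pool.Agent.Q4.Cov.Hilb

set_option autoImplicit false

/-!
# Fibres of finite covers of affine space over truncated expansions

Hilbert irreducibility and growth of discriminants for the fibres of a finite cover
`P(X₀, …, Xₙ, Y) = 0` of affine space over the points `x_q = (q, ⌊θ₁ q⌋, …, ⌊θₙ q⌋)`.
-/

namespace Pool.Agent.Results.MP_9b9442_nt.FibresOverTruncations

open MvPolynomial

/-- the point `x_q = (q, ⌊θ₁ q⌋, …, ⌊θₙ q⌋)`; the variable `none` is the one of `q` -/
noncomputable def point {n : ℕ} (θ : Fin n → ℝ) (q : ℕ) : Option (Fin n) → ℤ :=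
  fun o => o.elim (q : ℤ) (fun s => ⌊θ s * q⌋)

/-- the polynomial `P(x_q, Y)` with coefficients in `K` -/
noncomputable def fibre {n : ℕ} (θ : Fin n → ℝ) (q : ℕ)
    (P : Polynomial (MvPolynomial (Option (Fin n)) ℤ)) (K : Type) [Ring K] : Polynomial K :=
  P.map ((Int.castRingHom K).comp (eval (point θ q)))

/-- the fibre at the point `(0 : 1 : θ₁ : … : θₙ)` at infinity: `Σᵢ topᵢ(1, θ) Yⁱ`, where `topᵢ` is
the homogeneous part of degree `(deg P - i) D` of the `i`-th coefficient of `P` -/
noncomputable def fibreAtInfinity {n : ℕ} (θ : Fin n → ℝ) (D : ℕ)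
    (P : Polynomial (MvPolynomial (Option (Fin n)) ℤ)) : Polynomial ℝ :=
  ∑ i ∈ Finset.range (P.natDegree + 1),
    Polynomial.C (aeval (fun o : Option (Fin n) => (o.elim 1 θ : ℝ))
      (homogeneousComponent ((P.natDegree - i) * D) (P.coeff i))) * Polynomial.X ^ i

/-- Let `1, θ₁, …, θₙ` be real algebraic numbers, linearly independent over `ℚ`, `S` a finite set of
primes, and `P ∈ ℤ[X₀, …, Xₙ][Y]` monic in `Y` whose `i`-th coefficient has total degree at most
`(deg P - i) D`, such that the fibre at infinity over `(0 : 1 : θ₁ : … : θₙ)` is separable.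
Let `q` run through the positive integers composed of primes of `S`.

* For every `B` and all large `q`: over all number fields `K` with `|d_K| ≤ B`, every monic divisor
  of `P(x_q, Y)` in `K[Y]` is `G(x_q, Y)` for a monic divisor `G` of `P` in `K[X₀, …, Xₙ][Y]`.
* If `P` is irreducible over a number field `K`, then `P(x_q, Y)` is irreducible in `K[Y]` for all
  large `q`.
* If `P` has no zero `Y ∈ ℂ[X₀, …, Xₙ]`, then for every `B` and all large `q` every number field
  containing a root of `P(x_q, Y)` has absolute discriminant larger than `B`. -/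
theorem result (n : ℕ) (θ : Fin n → ℝ) (halg : ∀ s, IsAlgebraic ℚ (θ s))
    (hind : LinearIndependent ℚ (fun o : Option (Fin n) => (o.elim 1 θ : ℝ))) (S : Finset ℕ)
    (P : Polynomial (MvPolynomial (Option (Fin n)) ℤ)) (hP : P.Monic) (D : ℕ)
    (hdeg : ∀ i, (P.coeff i).totalDegree ≤ (P.natDegree - i) * D)
    (hsep : (fibreAtInfinity θ D P).Separable) :
    (∀ B : ℕ, ∃ q₀ : ℕ, ∀ q ≥ q₀, q.primeFactors ⊆ S → ∀ (K : Type) [Field K] [NumberField K],
      |NumberField.discr K| ≤ B → ∀ g : Polynomial K, g.Monic → g ∣ fibre θ q P K →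
      ∃ G : Polynomial (MvPolynomial (Option (Fin n)) K), G.Monic ∧
        G ∣ P.map (map (Int.castRingHom K)) ∧
        G.map (eval (fun o => ((point θ q o : ℤ) : K))) = g) ∧
    (∀ (K : Type) [Field K] [NumberField K], Irreducible (P.map (map (Int.castRingHom K))) →
      ∃ q₀ : ℕ, ∀ q ≥ q₀, q.primeFactors ⊆ S → Irreducible (fibre θ q P K)) ∧
    ((∀ G : MvPolynomial (Option (Fin n)) ℂ,
        Polynomial.eval G (P.map (map (Int.castRingHom ℂ))) ≠ 0) →
      ∀ B : ℕ, ∃ q₀ : ℕ, ∀ q ≥ q₀, q.primeFactors ⊆ S → ∀ (K : Type) [Field K] [NumberField K]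
        (y : K), (fibre θ q P K).eval y = 0 → (B : ℤ) < |NumberField.discr K|) := by
  have hf : ∀ x : ℕ, x.primeFactors ⊆ S → x.primeFactors ⊆ S.filter Nat.Prime := fun x hx p hp =>
    Finset.mem_filter.2 ⟨hx hp, Nat.prime_of_mem_primeFactors hp⟩
  have hmain : ∀ B : ℕ, ∃ q₀ : ℕ, ∀ q ≥ q₀, q.primeFactors ⊆ S →
      ∀ (K : Type) [Field K] [NumberField K],
      |NumberField.discr K| ≤ B → ∀ g : Polynomial K, g.Monic → g ∣ fibre θ q P K →
      ∃ G : Polynomial (MvPolynomial (Option (Fin n)) K), G.Monic ∧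
        G ∣ P.map (map (Int.castRingHom K)) ∧
        G.map (eval (fun o => ((point θ q o : ℤ) : K))) = g := by
    intro B
    obtain ⟨q₀, h⟩ := Pool.Agent.Q4.Cov.factors_lift (S.filter Nat.Prime)
      (fun p hp => (Finset.mem_filter.1 hp).2) θ halg hind P D hP hdeg hsep B
    exact ⟨q₀, fun q hq hS K _ _ hK g hg hd => h q hq (hf _ hS) K hK g hg hd⟩
  refine ⟨hmain, fun K _ _ hirr => ?_, fun hno B => ?_⟩
  · obtain ⟨q₀, h⟩ := hmain (NumberField.discr K).natAbs
    refine ⟨q₀, fun q hq hS => ?_⟩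
    have hPK : (P.map (map (Int.castRingHom K)) :
      Polynomial (MvPolynomial (Option (Fin n)) K)).Monic := hP.map _
    have hfm : (fibre θ q P K).Monic := hP.map _
    have hk0 : P.natDegree ≠ 0 := by
      intro h0
      rw [hP.natDegree_eq_zero] at h0
      rw [h0, Polynomial.map_one] at hirr
      exact not_irreducible_one hirr
    have h1 : (fibre θ q P K).natDegree = P.natDegree := hP.natDegree_map _
    have h2 : (P.map (map (Int.castRingHom K)) :
      Polynomial (MvPolynomial (Option (Fin n)) K)).natDegree = P.natDegree := hP.natDegree_map _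
    have hne1 : fibre θ q P K ≠ 1 := by
      intro h0
      rw [h0, Polynomial.natDegree_one] at h1
      exact hk0 h1.symm
    have hne2 : (P.map (map (Int.castRingHom K)) :
      Polynomial (MvPolynomial (Option (Fin n)) K)) ≠ 1 := by
      intro h0
      rw [h0, Polynomial.natDegree_one] at h2
      exact hk0 h2.symm
    rw [hfm.irreducible_iff_lt_natDegree_lt hne1]
    intro g hg hgd hdvd
    obtain ⟨G, hG, hGd, hGg⟩ := h q hq hS K (by rw [Int.abs_eq_natAbs]) g hg hdvd
    rw [hPK.irreducible_iff_lt_natDegree_lt hne2] at hirr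
    refine hirr G hG ?_ hGd
    rw [← hGg, hG.natDegree_map, h1] at hgd
    rw [h2]
    exact hgd
  · obtain ⟨q₀, h⟩ := hmain B
    refine ⟨q₀, fun q hq hS K _ _ y hy => ?_⟩
    by_contra hle
    obtain ⟨G, hG, hGd, hGg⟩ := h q hq hS K (not_lt.1 hle) (Polynomial.X - Polynomial.C y)
      (Polynomial.monic_X_sub_C y) (Polynomial.dvd_iff_isRoot.2 hy)
    have h1 : G.natDegree = 1 := by
      rw [← hG.natDegree_map (eval (fun o => ((point θ q o : ℤ) : K))), hGg,
        Polynomial.natDegree_X_sub_C]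
    have h2 : G = Polynomial.X + Polynomial.C (G.coeff 0) := by
      conv_lhs => rw [hG.as_sum, h1]
      simp
    have τ : K →+* ℂ := (IsAlgClosed.lift : K →ₐ[ℚ] ℂ).toRingHom
    have h3 := Polynomial.map_dvd (map τ : MvPolynomial (Option (Fin n)) K →+* _) hGd
    rw [Polynomial.map_map] at h3
    have h4 : (map τ : MvPolynomial (Option (Fin n)) K →+* MvPolynomial (Option (Fin n)) ℂ).comp
        (map (Int.castRingHom K)) = map (Int.castRingHom ℂ) := by
      ext x <;> simp
    rw [h4, h2] at h3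
    obtain ⟨Q, hQ⟩ := h3
    apply hno (-(map τ (G.coeff 0)))
    rw [hQ, Polynomial.eval_mul]
    simp

end Pool.Agent.Results.MP_9b9442_nt.FibresOverTruncations
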