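import Mathlib
import Pool.Agent.Q4.Tube.Sch2

set_option autoImplicit false

/-!
# Schmidt's theorem with algebraic functions as coefficients, over integral points near an irrational ray

The target hyperplanes `Z₀ + ρ₁(x) Z₁ + ⋯ + ρᵣ(x) Zᵣ = 0`, where `ρᵢ(x)` are roots of polynomials
`Pᵢ(x, Y)`, move as fast as the points: `x` runs through all integral points near a ray and the height
of `(Z₀ : ⋯ : Zᵣ)` is at most a power of `|x|`.
-/

namespace Pool.Agent.Results.MP_9b9442_nt.SchmidtNearRays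

open MvPolynomial

/-- the point `(q, x₁, …, xₙ)`; the variable `none` is the one of `q` -/
def point {n : ℕ} (q : ℕ) (x : Fin n → ℤ) : Option (Fin n) → ℤ := fun o => o.elim (q : ℤ) x

/-- the integral points `(q, x₁, …, xₙ)` near the ray spanned by `(1, θ₁, …, θₙ)`: `q = u w` where `u`
is composed of primes of `S` and `w ≤ q ^ η`, and `|θₛ q - xₛ| ≤ q ^ η` for all `s` -/
def NearRay {n : ℕ} (S : Finset ℕ) (θ : Fin n → ℝ) (η : ℝ) (q : ℕ) (x : Fin n → ℤ) : Prop :=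
  (∃ u w : ℕ, q = u * w ∧ u.primeFactors ⊆ S ∧ (w : ℝ) ≤ (q : ℝ) ^ η) ∧
  ∀ s, |θ s * q - x s| ≤ (q : ℝ) ^ η

/-- the polynomial `P(x, Y)` for `x = (q, x₁, …, xₙ)` -/
noncomputable def fibre {n : ℕ} (P : Polynomial (MvPolynomial (Option (Fin n)) ℤ)) (q : ℕ)
    (x : Fin n → ℤ) : Polynomial ℂ :=
  P.map ((Int.castRingHom ℂ).comp (eval (point q x)))

/-- the value at `(1, θ)` of the homogeneous part of degree `m` -/
noncomputable def atInfinity {n : ℕ} (θ : Fin n → ℝ) (m : ℕ) (F : MvPolynomial (Option (Fin n)) ℤ) : ℝ :=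
  aeval (fun o : Option (Fin n) => (o.elim 1 θ : ℝ)) (homogeneousComponent m F)

/-- the polynomial `Σᵢ topᵢ(1, θ) Yⁱ`, where `topᵢ` is the homogeneous part of degree
`(deg P - i) D + d` of the `i`-th coefficient of `P` -/
noncomputable def fibreAtInfinity {n : ℕ} (θ : Fin n → ℝ) (D d : ℕ)
    (P : Polynomial (MvPolynomial (Option (Fin n)) ℤ)) : Polynomial ℝ :=
  ∑ i ∈ Finset.range (P.natDegree + 1),
    Polynomial.C (atInfinity θ ((P.natDegree - i) * D + d) (P.coeff i)) * Polynomial.X ^ i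

/-- `P` defines algebraic functions unramified and with at most a pole of order `D` at the point
`(0 : 1 : θ)` at infinity: the `i`-th coefficient of `P` has degree at most `(deg P - i) D + d`, the part
of degree `d` of the leading one does not vanish at `(1, θ)`, and the fibre at infinity is separable -/
def Unramified {n : ℕ} (θ : Fin n → ℝ) (D d : ℕ)
    (P : Polynomial (MvPolynomial (Option (Fin n)) ℤ)) : Prop :=
  (∀ i, (P.coeff i).totalDegree ≤ (P.natDegree - i) * D + d) ∧ atInfinity θ d P.leadingCoeff ≠ 0 ∧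
    (fibreAtInfinity θ D d P).Separable

/-- the `S`-part of an integer -/
def sPart (S : Finset ℕ) (z : ℤ) : ℕ := ∏ p ∈ S, p ^ (z.natAbs.factorization p)

/-- Let `n ≥ 0`, `1, θ₁, …, θₙ` real algebraic numbers, linearly independent over `ℚ`, `S` a finite set
of primes, `P₁, …, Pᵣ ∈ ℤ[X₀, …, Xₙ][Y]` unramified over the point at infinity of the ray, `K ∈ ℕ` and
`ε > 0`. There are `η > 0`, `N` and a finite set `A` of nonzero vectors `(B₀, …, Bᵣ)` of rational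
polynomials in `X₀, …, Xₙ` such that for all integral points `x = (q, x₁, …, xₙ)` near the ray, `q ≥ N`,
all roots `ρᵢ ∈ ℂ` of `Pᵢ(x, Y)` and all integers `V₀, …, Vᵣ` with `|Vᵢ| ≤ q ^ K`: either
`B₀(x) V₀ + ⋯ + Bᵣ(x) Vᵣ = 0` for some `B ∈ A`, or
`|V₀ + ρ₁ V₁ + ⋯ + ρᵣ Vᵣ| |V₁ ⋯ Vᵣ| > q ^ (-ε) [V₀]_S [V₁]_S ⋯ [Vᵣ]_S`. -/
theorem result (n : ℕ) (θ : Fin n → ℝ) (halg : ∀ s, IsAlgebraic ℚ (θ s))
    (hind : LinearIndependent ℚ (fun o : Option (Fin n) => (o.elim 1 θ : ℝ))) (S : Finset ℕ)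
    (hS : ∀ p ∈ S, p.Prime) (r : ℕ) (P : Fin r → Polynomial (MvPolynomial (Option (Fin n)) ℤ))
    (D d : Fin r → ℕ) (hP : ∀ i, Unramified θ (D i) (d i) (P i)) (K : ℕ) (ε : ℝ) (hε : 0 < ε) :
    ∃ (η : ℝ) (N : ℕ) (A : Finset (Option (Fin r) → MvPolynomial (Option (Fin n)) ℚ)), 0 < η ∧
      (∀ B ∈ A, B ≠ 0) ∧
      ∀ q ≥ N, ∀ x, NearRay S θ η q x → ∀ ρ : Fin r → ℂ, (∀ i, (fibre (P i) q x).IsRoot (ρ i)) →
        ∀ V : Option (Fin r) → ℤ, (∀ o, |V o| ≤ (q : ℤ) ^ K) →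
        (∃ B ∈ A, ∑ o, (V o : ℚ) * aeval (fun i => ((point q x i : ℤ) : ℚ)) (B o) = 0) ∨
        (q : ℝ) ^ (-ε) * ∏ o, (sPart S (V o) : ℝ)
          < ‖(V none : ℂ) + ∑ i, ρ i * V (some i)‖ * ∏ i, |(V (some i) : ℝ)| := by
  obtain ⟨η, N, A, hη, hA, h⟩ := Pool.Agent.Q4.Tube.schmidt_main S hS halg hind P D d
    (fun i => (hP i).2.1) (fun i => (hP i).1) (fun i => (hP i).2.2) K ε hε
  refine ⟨η, N, A, hη, hA, fun q hq x hx ρ hρ V hV => ?_⟩
  by_cases hc : (q : ℝ) ^ (-ε) * ∏ o, (sPart S (V o) : ℝ)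
          < ‖(V none : ℂ) + ∑ i, ρ i * V (some i)‖ * ∏ i, |(V (some i) : ℝ)|
  · exact Or.inr hc
  · exact Or.inl (h q hq x hx ρ hρ V hV (not_lt.1 hc))

end Pool.Agent.Results.MP_9b9442_nt.SchmidtNearRays
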